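import Pool.Agent.U581.LB.StmJ
import Pool.Agent.U251.LB.LIM

/-!
# Project LJ, package JSEQ: the sequential form of the independence
-/

set_option autoImplicit false

namespace Pool.Agent.U934.LB

open Real MeasureTheory Filter Topology ProbabilityTheory Pool.Agent.U581.BM Pool.Agent.U581.LB
open Pool.Agent.U251.LB (Dh Dh_int Dh_meas UB UN_le UB_nonneg Pc_meas UN_cont GG vec GG_vec zP
  zP_meas vec_meas)
open scoped BoundedContinuousFunction NNReal

theorem path_meas (F : C(unitInterval, ℝ) →ᵇ ℝ) (ρ : ℝ) (M : ℕ) (T : ℝ) :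
    Measurable fun x : ℝ => F (pathR ρ M (T * x)) := by
  have g1 : Measurable fun x : ℝ => GG M F (vec M (zP ρ M (T * x))) :=
    (GG M F).continuous.measurable.comp
      (vec_meas M fun i => (zP_meas ρ M i).comp (measurable_const_mul T))
  have e1 : (fun x : ℝ => F (pathR ρ M (T * x))) =
      fun x : ℝ => GG M F (vec M (zP ρ M (T * x))) := by
    funext x
    rw [GG_vec]
    rfl
  rw [e1]
  exact g1

theorem int_bdd {μ : Measure ℝ} [IsProbabilityMeasure μ] {f : ℝ → ℝ} (h : Measurable f) {D : ℝ}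
    (hb : ∀ x, |f x| ≤ D) : Integrable f μ :=
  Integrable.of_bound h.aestronglyMeasurable D (Eventually.of_forall fun x => by
    rw [Real.norm_eq_abs]
    exact hb x)

/-- comparison of the defects of two functions -/
theorem cmp (μ : Measure ℝ) [IsProbabilityMeasure μ] {f1 f2 Φ : ℝ → ℝ} (b Fn : ℝ)
    (h1 : Measurable f1) (h2 : Measurable f2) (hΦ : Measurable Φ) {D1 D2 : ℝ}
    (hb1 : ∀ x, |f1 x| ≤ D1) (hb2 : ∀ x, |f2 x| ≤ D2) (hF : ∀ x, |Φ x| ≤ Fn) :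
    |((∫ x, f1 x * Φ x ∂μ) - (∫ x, f1 x ∂μ) * b) -
      ((∫ x, f2 x * Φ x ∂μ) - (∫ x, f2 x ∂μ) * b)| ≤
      (∫ x, |f1 x - f2 x| ∂μ) * (Fn + |b|) := by
  have i1 : Integrable f1 μ := int_bdd h1 hb1
  have i2 : Integrable f2 μ := int_bdd h2 hb2
  have j1 : Integrable (fun x => f1 x * Φ x) μ := int_bdd (h1.mul hΦ) (D := D1 * Fn) fun x => by
    rw [abs_mul]
    exact mul_le_mul (hb1 x) (hF x) (abs_nonneg _) ((abs_nonneg _).trans (hb1 x))
  have j2 : Integrable (fun x => f2 x * Φ x) μ := int_bdd (h2.mul hΦ) (D := D2 * Fn) fun x => by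
    rw [abs_mul]
    exact mul_le_mul (hb2 x) (hF x) (abs_nonneg _) ((abs_nonneg _).trans (hb2 x))
  have e : ((∫ x, f1 x * Φ x ∂μ) - (∫ x, f1 x ∂μ) * b) -
      ((∫ x, f2 x * Φ x ∂μ) - (∫ x, f2 x ∂μ) * b) = ∫ x, (f1 x - f2 x) * (Φ x - b) ∂μ := by
    have s0 := integral_sub (μ := μ) (f := fun x => f1 x * Φ x - f1 x * b)
      (g := fun x => f2 x * Φ x - f2 x * b) (j1.sub (i1.mul_const b)) (j2.sub (i2.mul_const b))
    rw [← integral_mul_const, ← integral_mul_const, ← integral_sub j1 (i1.mul_const b),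
      ← integral_sub j2 (i2.mul_const b), ← s0]
    refine integral_congr_ae (Eventually.of_forall fun x => ?_)
    show (f1 x * Φ x - f1 x * b) - (f2 x * Φ x - f2 x * b) = (f1 x - f2 x) * (Φ x - b)
    ring
  rw [e, ← integral_mul_const, ← Real.norm_eq_abs]
  refine norm_integral_le_of_norm_le ((i1.sub i2).abs.mul_const _)
    (Eventually.of_forall fun x => ?_)
  rw [norm_mul, Real.norm_eq_abs, Real.norm_eq_abs]
  have h3 : |Φ x - b| ≤ Fn + |b| := (abs_sub _ _).trans (by linarith [hF x])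
  exact mul_le_mul_of_nonneg_left h3 (abs_nonneg _)

theorem t_JSEQ (h1 : S_COS) (h2 : S_TRG) (h3 : S_MSQ) : S_JSEQ := by
  intro c₁ c₂ K s hc hs T ρ M μ hμ hT1 hT hρ hρ0 hM hδ Ω _ P B hB F g l D hg hD
  obtain ⟨C, τ, T₀, hC, hτ, hms⟩ := h3 c₁ c₂ K s hc hs
  set b := ∫ ω, F (bpath B ω) ∂P with hb
  refine Metric.tendsto_nhds.2 fun ε hε => ?_
  obtain ⟨A0, hA0⟩ : ∃ A0 : ℝ, A0 = ‖F‖ + |b| + 1 := ⟨_, rfl⟩
  have hF0 : 0 ≤ ‖F‖ := norm_nonneg _
  have hA1 : 0 < A0 := by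
    rw [hA0]
    have := abs_nonneg b
    linarith
  have hl0 : (0 : ℝ) ≤ l := l.2
  obtain ⟨ε1, hε1⟩ : ∃ ε1 : ℝ, ε1 = ε / (4 * A0 * (l + 1)) := ⟨_, rfl⟩
  obtain ⟨ε2, hε2⟩ : ∃ ε2 : ℝ, ε2 = ε / (4 * A0) := ⟨_, rfl⟩
  have hε10 : 0 < ε1 := by rw [hε1]; positivity
  have hε20 : 0 < ε2 := by rw [hε2]; positivity
  obtain ⟨L0, hL0, hL1⟩ : ∃ L0 : ℕ, 1 ≤ L0 ∧ C * (L0 : ℝ) ^ (-τ) ≤ ε1 ^ 2 := by
    have h4 : Tendsto (fun n : ℕ => C * (n : ℝ) ^ (-τ)) atTop (𝓝 0) := by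
      have h5 := ((tendsto_rpow_neg_atTop hτ).comp tendsto_natCast_atTop_atTop).const_mul C
      rw [mul_zero] at h5
      exact h5
    have h6 : (0 : ℝ) < ε1 ^ 2 := by positivity
    obtain ⟨n, hn1, hn2⟩ := ((h4.eventually (gt_mem_nhds h6)).and (eventually_ge_atTop 1)).exists
    exact ⟨n, hn2, hn1.le⟩
  have hUB := UB_nonneg (L0 ^ 2)
  obtain ⟨n, a, α, bb, hap⟩ := h2 g hg.continuous (UB (L0 ^ 2) + 1) ε2 (by linarith) hε20
  have hlim : Tendsto (fun j => ∑ k, a k *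
      ((∫ x, cos (α k * UN (L0 ^ 2) (T j * x) + bb k) * F (pathR (ρ j) (M j) (T j * x)) ∂μ j) -
        (∫ x, cos (α k * UN (L0 ^ 2) (T j * x) + bb k) ∂μ j) * b)) atTop (𝓝 0) := by
    have h7 := tendsto_finsetSum Finset.univ (fun k _ =>
      (h1 c₁ c₂ K s hc hs T ρ M μ hμ hT1 hT hρ hρ0 hM hδ P B hB F L0 (α k) (bb k)).const_mul (a k))
    simpa using h7
  have ev1 := hlim.eventually (Metric.ball_mem_nhds 0 (show 0 < ε / 4 by positivity))
  have ev2 : ∀ᶠ j in atTop, T₀ ≤ T j := hT.eventually_ge_atTop T₀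
  have ev3 : ∀ᶠ j in atTop, (L0 : ℝ) ≤ T j ^ τ :=
    ((tendsto_rpow_atTop hτ).comp hT).eventually_ge_atTop _
  filter_upwards [ev1, ev2, ev3] with j e1 e2 e3
  have hprob := (hμ j).prob
  have hTj : 0 < T j := by linarith [hT1 j]
  have mΦ := path_meas F (ρ j) (M j) (T j)
  have mU : Measurable fun x : ℝ => UN (L0 ^ 2) (T j * x) :=
    (UN_cont (L0 ^ 2)).measurable.comp (measurable_const_mul (T j))
  have m1 : Measurable fun x : ℝ => g (Pc (T j * x) / √(T j * x)) :=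
    hg.continuous.measurable.comp ((Pc_meas.comp (measurable_const_mul (T j))).div
      (Real.continuous_sqrt.measurable.comp (measurable_const_mul (T j))))
  have m2 : Measurable fun x : ℝ => g (UN (L0 ^ 2) (T j * x)) := hg.continuous.measurable.comp mU
  have m3 : Measurable fun x : ℝ => ∑ k, a k * cos (α k * UN (L0 ^ 2) (T j * x) + bb k) := by
    refine Finset.measurable_sum _ fun k _ => ?_
    exact (Real.measurable_cos.comp ((mU.const_mul _).add_const _)).const_mul _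
  have b3 : ∀ x : ℝ, |∑ k, a k * cos (α k * UN (L0 ^ 2) (T j * x) + bb k)| ≤ ∑ k, |a k| := by
    intro x
    refine (Finset.abs_sum_le_sum_abs _ _).trans (Finset.sum_le_sum fun k _ => ?_)
    rw [abs_mul]
    exact mul_le_of_le_one_right (abs_nonneg _) (Real.abs_cos_le_one _)
  have bF : ∀ x : ℝ, |F (pathR (ρ j) (M j) (T j * x))| ≤ ‖F‖ := fun x => by
    rw [← Real.norm_eq_abs]
    exact F.norm_coe_le_norm _
  have k1 := cmp (μ j) b ‖F‖ m1 m2 mΦ (fun x => hD _) (fun x => hD _) bF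
  have k2 := cmp (μ j) b ‖F‖ m2 m3 mΦ (fun x => hD _) b3 bF
  -- the first distance
  have d1 : ∫ x, |g (Pc (T j * x) / √(T j * x)) - g (UN (L0 ^ 2) (T j * x))| ∂μ j ≤ l * ε1 := by
    have hI := Dh_int hc hTj (hμ j) (L0 ^ 2) 0
    have hm := hms (T j) 0 L0 e2 le_rfl zero_le_one hL0 e3 (μ j) (hμ j)
    have hm' : ∫ x, Dh (L0 ^ 2) (T j) 0 x ^ 2 ∂μ j ≤ ε1 ^ 2 := hm.trans hL1
    have hI2 : Integrable (fun x => (l : ℝ) * ((Dh (L0 ^ 2) (T j) 0 x ^ 2 / ε1 + ε1) / 2)) (μ j) :=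
      (((hI.div_const ε1).add (integrable_const ε1)).div_const 2).const_mul _
    have hle : ∀ x, |g (Pc (T j * x) / √(T j * x)) - g (UN (L0 ^ 2) (T j * x))| ≤
        (l : ℝ) * ((Dh (L0 ^ 2) (T j) 0 x ^ 2 / ε1 + ε1) / 2) := by
      intro x
      have q1 := hg.dist_le_mul (Pc (T j * x) / √(T j * x)) (UN (L0 ^ 2) (T j * x))
      rw [Real.dist_eq, Real.dist_eq] at q1
      refine q1.trans (mul_le_mul_of_nonneg_left ?_ hl0)
      have q2 : Pc (T j * x) / √(T j * x) - UN (L0 ^ 2) (T j * x) = Dh (L0 ^ 2) (T j) 0 x := by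
        unfold Dh
        rw [add_zero]
      rw [q2]
      set y := Dh (L0 ^ 2) (T j) 0 x
      have q3 : y ^ 2 = |y| ^ 2 := (sq_abs y).symm
      rw [q3, le_div_iff₀ (by norm_num : (0 : ℝ) < 2)]
      have q4 : |y| * 2 * ε1 ≤ |y| ^ 2 + ε1 * ε1 := by nlinarith [sq_nonneg (|y| - ε1)]
      calc |y| * 2 = |y| * 2 * ε1 / ε1 := by field_simp
        _ ≤ (|y| ^ 2 + ε1 * ε1) / ε1 := div_le_div_of_nonneg_right q4 hε10.le
        _ = |y| ^ 2 / ε1 + ε1 := by field_simp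
    calc ∫ x, |g (Pc (T j * x) / √(T j * x)) - g (UN (L0 ^ 2) (T j * x))| ∂μ j
        ≤ ∫ x, (l : ℝ) * ((Dh (L0 ^ 2) (T j) 0 x ^ 2 / ε1 + ε1) / 2) ∂μ j :=
          integral_mono (((int_bdd m1 fun x => hD _).sub (int_bdd m2 fun x => hD _)).abs) hI2 hle
      _ = l * (((∫ x, Dh (L0 ^ 2) (T j) 0 x ^ 2 ∂μ j) / ε1 + ε1) / 2) := by
          rw [integral_const_mul, integral_div, integral_add (hI.div_const ε1)
            (integrable_const ε1), integral_div, integral_const, probReal_univ, one_smul]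
      _ ≤ l * ε1 := by
          refine mul_le_mul_of_nonneg_left ?_ hl0
          have q5 : (∫ x, Dh (L0 ^ 2) (T j) 0 x ^ 2 ∂μ j) / ε1 ≤ ε1 := by
            rw [div_le_iff₀ hε10]
            calc _ ≤ ε1 ^ 2 := hm'
              _ = ε1 * ε1 := by ring
          linarith
  -- the second distance
  have d2 : ∫ x, |g (UN (L0 ^ 2) (T j * x)) -
      ∑ k, a k * cos (α k * UN (L0 ^ 2) (T j * x) + bb k)| ∂μ j ≤ ε2 := by
    calc _ ≤ ∫ _x : ℝ, ε2 ∂μ j :=
          integral_mono (((int_bdd m2 fun x => hD _).sub (int_bdd m3 b3)).abs)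
            (integrable_const _) (fun x => hap _ (by linarith [UN_le (L0 ^ 2) (T j * x)]))
      _ = ε2 := by rw [integral_const, probReal_univ, one_smul]
  -- the sum
  have e : (∫ x, (∑ k, a k * cos (α k * UN (L0 ^ 2) (T j * x) + bb k)) *
        F (pathR (ρ j) (M j) (T j * x)) ∂μ j) -
      (∫ x, ∑ k, a k * cos (α k * UN (L0 ^ 2) (T j * x) + bb k) ∂μ j) * b =
      ∑ k, a k * ((∫ x, cos (α k * UN (L0 ^ 2) (T j * x) + bb k) *
        F (pathR (ρ j) (M j) (T j * x)) ∂μ j) -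
        (∫ x, cos (α k * UN (L0 ^ 2) (T j * x) + bb k) ∂μ j) * b) := by
    have mc : ∀ k, Measurable fun x : ℝ => cos (α k * UN (L0 ^ 2) (T j * x) + bb k) := fun k =>
      Real.measurable_cos.comp ((mU.const_mul _).add_const _)
    have ic : ∀ k, Integrable (fun x : ℝ => cos (α k * UN (L0 ^ 2) (T j * x) + bb k)) (μ j) :=
      fun k => int_bdd (mc k) fun x => Real.abs_cos_le_one _
    have icF : ∀ k, Integrable (fun x : ℝ => cos (α k * UN (L0 ^ 2) (T j * x) + bb k) *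
        F (pathR (ρ j) (M j) (T j * x))) (μ j) := fun k =>
      int_bdd ((mc k).mul mΦ) (D := 1 * ‖F‖) fun x => by
        rw [abs_mul]
        exact mul_le_mul (Real.abs_cos_le_one _) (bF x) (abs_nonneg _) zero_le_one
    have s1 : ∫ x, (∑ k, a k * cos (α k * UN (L0 ^ 2) (T j * x) + bb k)) *
        F (pathR (ρ j) (M j) (T j * x)) ∂μ j = ∑ k, a k *
        ∫ x, cos (α k * UN (L0 ^ 2) (T j * x) + bb k) * F (pathR (ρ j) (M j) (T j * x)) ∂μ j := by
      have : (fun x => (∑ k, a k * cos (α k * UN (L0 ^ 2) (T j * x) + bb k)) *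
          F (pathR (ρ j) (M j) (T j * x))) = fun x => ∑ k, a k *
          (cos (α k * UN (L0 ^ 2) (T j * x) + bb k) * F (pathR (ρ j) (M j) (T j * x))) := by
        funext x
        rw [Finset.sum_mul]
        exact Finset.sum_congr rfl fun k _ => by ring
      rw [this, integral_finsetSum _ fun k _ => (icF k).const_mul _]
      exact Finset.sum_congr rfl fun k _ => integral_const_mul _ _
    have s2 : ∫ x, ∑ k, a k * cos (α k * UN (L0 ^ 2) (T j * x) + bb k) ∂μ j =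
        ∑ k, a k * ∫ x, cos (α k * UN (L0 ^ 2) (T j * x) + bb k) ∂μ j := by
      rw [integral_finsetSum _ fun k _ => (ic k).const_mul _]
      exact Finset.sum_congr rfl fun k _ => integral_const_mul _ _
    rw [s1, s2, Finset.sum_mul, ← Finset.sum_sub_distrib]
    exact Finset.sum_congr rfl fun k _ => by ring
  rw [e] at k2
  rw [dist_zero_right, Real.norm_eq_abs] at e1
  rw [dist_zero_right, Real.norm_eq_abs]
  have hFb : 0 ≤ ‖F‖ + |b| := by
    have := abs_nonneg b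
    linarith
  have hFbA : ‖F‖ + |b| ≤ A0 := by rw [hA0]; linarith
  have z1 : (l : ℝ) * ε1 * (‖F‖ + |b|) ≤ ε / 4 := by
    have y1 : (l : ℝ) * ε1 * (‖F‖ + |b|) ≤ (l + 1) * ε1 * A0 := by
      apply mul_le_mul _ hFbA hFb (by positivity)
      apply mul_le_mul_of_nonneg_right _ hε10.le
      linarith
    have y2 : ((l : ℝ) + 1) * ε1 * A0 = ε / 4 := by
      rw [hε1]
      have : (l : ℝ) + 1 ≠ 0 := by positivity
      field_simp
    linarith
  have z2 : ε2 * (‖F‖ + |b|) ≤ ε / 4 := by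
    have y1 : ε2 * (‖F‖ + |b|) ≤ ε2 * A0 := mul_le_mul_of_nonneg_left hFbA hε20.le
    have y2 : ε2 * A0 = ε / 4 := by
      rw [hε2]
      field_simp
    linarith
  have w1 := k1.trans (mul_le_mul_of_nonneg_right d1 hFb)
  have w2 := k2.trans (mul_le_mul_of_nonneg_right d2 hFb)
  have w3 := abs_add_le
    (((∫ x, g (Pc (T j * x) / √(T j * x)) * F (pathR (ρ j) (M j) (T j * x)) ∂μ j) -
      (∫ x, g (Pc (T j * x) / √(T j * x)) ∂μ j) * b) -
      ((∫ x, g (UN (L0 ^ 2) (T j * x)) * F (pathR (ρ j) (M j) (T j * x)) ∂μ j) -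
      (∫ x, g (UN (L0 ^ 2) (T j * x)) ∂μ j) * b))
    (((∫ x, g (UN (L0 ^ 2) (T j * x)) * F (pathR (ρ j) (M j) (T j * x)) ∂μ j) -
      (∫ x, g (UN (L0 ^ 2) (T j * x)) ∂μ j) * b))
  have w4 := abs_add_le
    (((∫ x, g (UN (L0 ^ 2) (T j * x)) * F (pathR (ρ j) (M j) (T j * x)) ∂μ j) -
      (∫ x, g (UN (L0 ^ 2) (T j * x)) ∂μ j) * b) -
      ∑ k, a k * ((∫ x, cos (α k * UN (L0 ^ 2) (T j * x) + bb k) *
        F (pathR (ρ j) (M j) (T j * x)) ∂μ j) -
        (∫ x, cos (α k * UN (L0 ^ 2) (T j * x) + bb k) ∂μ j) * b))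
    (∑ k, a k * ((∫ x, cos (α k * UN (L0 ^ 2) (T j * x) + bb k) *
        F (pathR (ρ j) (M j) (T j * x)) ∂μ j) -
        (∫ x, cos (α k * UN (L0 ^ 2) (T j * x) + bb k) ∂μ j) * b))
  rw [sub_add_cancel] at w3 w4
  linarith

end Pool.Agent.U934.LB
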